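import Pool.Agent.NTS.StmtsE
import Pool.Agent.Helper55_PFS.NOP
import Pool.Agent.Helper60_PFS.Simp

/-!
# NTS squad, row DSE (helper65): discreteness
-/

set_option autoImplicit false

open Matrix Filter Topology

namespace Pool.Agent.NTS.H65

open Pool.Agent.PFS Pool.Agent.PFJ Pool.Agent.NTS

variable {n : ℕ} {C : Set (V n)}

theorem near_smul (P : PCone C) {K : ℕ} {M : ℝ} {w : Fin K → V n} {p : V n} {s : ℝ} (hs : 0 < s)
    (h : Near C M w p) : Near C M w (s • p) := by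
  obtain ⟨c, hc, h1, h2⟩ := h
  refine ⟨fun i => s * c i, fun i => mul_pos hs (hc i), ?_, ?_⟩
  · have e : (∑ i, (s * c i) • w i) - s • p = s • ((∑ i, c i • w i) - p) := by
      simp only [mul_smul, smul_sub, Finset.smul_sum]
    rw [e]
    exact P.cl_smul_pos h1 hs
  · have e : M • s • p - (∑ i, (s * c i) • w i) = s • (M • p - ∑ i, c i • w i) := by
      rw [smul_sub, Finset.smul_sum, smul_comm M s]
      simp only [mul_smul]
    rw [e]
    exact P.cl_smul_pos h2 hs

theorem pt_shift {K : ℕ} (w : Fin K → V n) (u : Fin K → ℤ) (t : ℤ) :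
    pt w (fun i => u i + t) = (2 : ℝ) ^ t • pt w u := by
  unfold pt
  rw [Finset.smul_sum]
  refine Finset.sum_congr rfl fun i _ => ?_
  rw [smul_smul, zpow_add₀ two_ne_zero, mul_comm]

theorem pt_pos {K : ℕ} (w : Fin K → V n) (u : Fin K → ℤ) : pt w u ∈ PosCone w :=
  ⟨fun i => (2 : ℝ) ^ u i, fun i => by positivity, rfl⟩

theorem fin_ball {K : ℕ} (B : ℤ) : {v : Fin K → ℤ | ∑ i, (v i) ^ 2 < B}.Finite := by
  refine (Set.finite_Icc (fun _ : Fin K => -B) (fun _ : Fin K => B)).subset ?_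
  intro v hv
  have hv' : ∑ i, (v i) ^ 2 < B := hv
  have h1 : ∀ i, (v i) ^ 2 < B := fun i =>
    lt_of_le_of_lt (Finset.single_le_sum (f := fun i => (v i) ^ 2) (fun j _ => sq_nonneg _)
      (Finset.mem_univ i)) hv'
  constructor
  · intro i
    have := h1 i
    change -B ≤ v i
    nlinarith [sq_nonneg (v i + 1), sq_nonneg (v i)]
  · intro i
    have := h1 i
    change v i ≤ B
    nlinarith [sq_nonneg (v i - 1), sq_nonneg (v i)]

theorem exists_min {K : ℕ} (S : Set (Fin K → ℤ)) (hS : S.Nonempty) :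
    ∃ u ∈ S, ∀ v ∈ S, ∑ i, (u i) ^ 2 ≤ ∑ i, (v i) ^ 2 := by
  obtain ⟨u, hu, h⟩ := (measure fun u : Fin K → ℤ => (∑ i, (u i) ^ 2).toNat).wf.has_min S hS
  refine ⟨u, hu, fun v hv => ?_⟩
  have h1 := h v hv
  have h2 : ¬ ((∑ i, (v i) ^ 2).toNat < (∑ i, (u i) ^ 2).toNat) := h1
  have h3 : 0 ≤ ∑ i, (v i) ^ 2 := Finset.sum_nonneg fun i _ => sq_nonneg _
  have h4 : 0 ≤ ∑ i, (u i) ^ 2 := Finset.sum_nonneg fun i _ => sq_nonneg _
  omega

theorem dse (hEXV : ExvStmt) (hVTX : VtxStmt) (hHTE : HteStmt) (hLAB : LabStmt)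
    (hZSL : ZslStmt) (hBAL : BalStmt) (hNLN : NlnStmt) : DseStmt := by
  intro n C Γ h K hK hMax T hT hTE x w hx hw hlim
  have P : PCone C := h.toPCone
  have hwP : IsPES C Γ w := hT.pes w hw
  have hK2 : 2 ≤ K := by omega
  have hind := H60.lin n C P (Fin K) w hwP.1
  have hpt : ∀ u : Fin K → ℤ, pt w u ∈ C := fun u =>
    hwP.1.pos (fun i => (2 : ℝ) ^ u i) fun i => by positivity
  by_contra hcon
  obtain ⟨φ1, hφ1, hns⟩ := Filter.extraction_of_frequently_atTop (not_eventually.1 hcon)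
  have hlim1 : ∀ i, Tendsto (fun m => x (φ1 m) i) atTop (𝓝 (w i)) := fun i =>
    (hlim i).comp hφ1.tendsto_atTop
  have hlab := hLAB n C P K (fun _ => w) (fun m => x (φ1 m)) w (fun _ => hwP.1)
    (fun m => (hT.pes _ (hx _)).1) hwP.1 (fun i => tendsto_const_nhds) hlim1
  obtain ⟨N0, hN0⟩ := eventually_atTop.1 hlab
  obtain ⟨y, hy⟩ : ∃ y : ℕ → Fin K → V n, y = fun m => x (φ1 (m + N0)) := ⟨_, rfl⟩
  have hyT : ∀ m, T (y m) := fun m => by rw [hy]; exact hx _
  have hyS : ∀ m, ¬ Same w (y m) := fun m => by rw [hy]; exact hns _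
  have hylim : ∀ i, Tendsto (fun m => y m i) atTop (𝓝 (w i)) := fun i => by
    rw [hy]
    exact (hlim1 i).comp (tendsto_add_atTop_nat N0)
  have hlb : ∀ m u, Near C 2 (y m) (pt w u) → NearL C 2 4 w (y m) u := by
    intro m u hu
    rw [hy] at hu ⊢
    exact hN0 (m + N0) (by omega) u hu
  -- the bad points
  have hne : ∀ m, {u : Fin K → ℤ | ¬ Near C 2 (y m) (pt w u)}.Nonempty := by
    intro m
    by_contra hem
    rw [Set.not_nonempty_iff_eq_empty] at hem
    have hall : ∀ u, NearL C 2 4 w (y m) u := by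
      intro u
      apply hlb
      by_contra hbad
      have : u ∈ {u : Fin K → ℤ | ¬ Near C 2 (y m) (pt w u)} := hbad
      rw [hem] at this
      exact this
    have hv : ∀ i, ∃ c : ℝ, 0 < c ∧ y m i = c • w i := by
      intro i
      refine hVTX n C P K w (y m) i 2 4 (fun N j => if j = i then (N : ℤ) else 0)
        (hwP.1.cl i) (hind.ne_zero i) ((hT.pes _ (hyT m)).1.cl i)
        (hEXV n C Γ h K hK2 hMax w hwP i) (fun N => hall _) ?_
      intro j hj A
      filter_upwards [eventually_ge_atTop A.toNat] with N hN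
      rw [if_pos rfl, if_neg hj, sub_zero]
      omega
    choose c hc hc' using hv
    apply hyS m
    refine ⟨1, fun i => (c i)⁻¹, fun i => inv_pos.2 (hc i), fun i => ?_⟩
    rw [Equiv.Perm.one_apply, hc' i, smul_smul, inv_mul_cancel₀ (hc i).ne', one_smul]
  choose u hub humin using fun m => exists_min _ (hne m)
  have hub' : ∀ m, ¬ Near C 2 (y m) (pt w (u m)) := hub
  have humin' : ∀ m v, ¬ Near C 2 (y m) (pt w v) → ∑ i, (u m i) ^ 2 ≤ ∑ i, (v i) ^ 2 :=
    fun m v hv => humin m v hv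
  have hb1 : ∀ (m : ℕ) (t : ℤ), ∑ i, (u m i) ^ 2 ≤ ∑ i, (u m i + t) ^ 2 := by
    intro m t
    apply humin' m (fun i => u m i + t)
    intro hn
    rw [pt_shift] at hn
    apply hub' m
    have h2 : (0 : ℝ) < (2 : ℝ) ^ (-t) := by positivity
    have h1 := near_smul P h2 hn
    rw [smul_smul, ← zpow_add₀ two_ne_zero, neg_add_cancel, zpow_zero, one_smul] at h1
    exact h1
  have hb2 : ∀ B : ℤ, ∀ᶠ m in atTop, B ≤ ∑ i, (u m i) ^ 2 := by
    intro B
    have h1 : ∀ᶠ m in atTop, ∀ v ∈ {v : Fin K → ℤ | ∑ i, (v i) ^ 2 < B},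
        Near C 2 (y m) (pt w v) := by
      rw [Filter.eventually_all_finite (fin_ball B)]
      intro v _
      exact H55.nop n C P (Fin K) y w (fun _ => pt w v) (pt w v) 2 (by norm_num) (hpt v)
        (pt_pos w v) hylim tendsto_const_nhds
    filter_upwards [h1] with m hm
    by_contra hlt
    push Not at hlt
    exact hub' m (hm _ hlt)
  obtain ⟨φ2, ν, hφ2, hν, hνs, hνv⟩ := hBAL K u hb1 hb2
  have hnear : ∀ v : Fin K → ℤ, 0 < ∑ i, ν i * (v i : ℝ) →
      ∀ᶠ m in atTop, NearL C 2 4 w (y (φ2 m)) (fun i => u (φ2 m) i + v i) := by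
    intro v hv
    filter_upwards [hνv v hv] with m hm
    apply hlb
    by_contra hbad
    have := humin' _ _ hbad
    linarith
  have hnear2 : ∀ᶠ m in atTop, NearL C 4 8 w (y m) (u m) := by
    filter_upwards [hb2 1] with m hm
    have hex : ∃ i, u m i ≠ 0 := by
      by_contra hall
      push Not at hall
      have : ∑ i, (u m i) ^ 2 = 0 := Finset.sum_eq_zero fun i _ => by rw [hall i]; ring
      omega
    obtain ⟨i, hi⟩ := hex
    obtain ⟨e, he, hei⟩ : ∃ e : ℤ, (e = 1 ∨ e = -1) ∧ (u m i + e) ^ 2 < (u m i) ^ 2 := by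
      rcases lt_or_gt_of_ne hi with h1 | h1
      · exact ⟨1, Or.inl rfl, by nlinarith⟩
      · exact ⟨-1, Or.inr rfl, by nlinarith⟩
    refine hNLN n C P K w (y m) (u m) i e (fun j => hwP.1.cl j)
      (fun j => (hT.pes _ (hyT m)).1.cl j) he ?_
    apply hlb
    by_contra hbad
    have h1 := humin' _ _ hbad
    have h2 : ∑ j, (if j = i then u m j + e else u m j) ^ 2 < ∑ j, (u m j) ^ 2 := by
      refine Finset.sum_lt_sum (fun j _ => ?_) ⟨i, Finset.mem_univ i, ?_⟩
      · by_cases hj : j = i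
        · rw [if_pos hj, hj]
          exact hei.le
        · rw [if_neg hj]
      · rw [if_pos rfl]
        exact hei
    linarith
  obtain ⟨N1, hN1⟩ := eventually_atTop.1 hnear2
  obtain ⟨φ3, W, W', hφ3, hTW, hTW', hnS, hZ⟩ := hZSL n C Γ h K hK2 T hT (fun _ => w)
    (fun m => y (φ2 (m + N1))) (fun m => u (φ2 (m + N1))) 4 8 (fun _ => hw) (fun m => hyT _)
    (fun m => hN1 _ ((by omega : N1 ≤ m + N1).trans (hφ2.le_apply))) (fun m => hub' _)
  apply hnS
  refine hHTE n C Γ h K hK hMax W W' ν 2 4 (hT.pes _ hTW) (hT.pes _ hTW') (hTE W hTW) hν hνs ?_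
  intro v hv
  apply hZ
  have h1 : Tendsto (fun m => φ3 m + N1) atTop atTop :=
    (tendsto_add_atTop_nat N1).comp hφ3.tendsto_atTop
  exact (h1.eventually (hnear v hv)).frequently

end Pool.Agent.NTS.H65
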